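import Pool.Agent.NBT.StmtsA

/-!
# NBT, row IBL: limits of `I`-boxes
-/

set_option autoImplicit false

open Matrix Filter Topology

namespace Pool.Agent.NBT.H28

open Pool.Agent.PFS Pool.Agent.PFJ Pool.Agent.NBT

variable {n K : ℕ}

theorem ibl : IblStmt := by
  intro n C h K x w I L L' hx hw hlim hIB hL
  have hmem : ∀ i ∈ I, w i ∈ L' := fun i hi =>
    hL.2 id (fun m => x m i) (w i) strictMono_id (fun m => (hIB m).mem i hi) (hlim i)
  refine ⟨hmem, fun v hv hvc => ?_⟩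
  obtain ⟨y, hyL, hylim⟩ := hL.1 v hv
  have hsumC : ∑ l, w l ∈ C := by
    have := hw.pos (fun _ => 1) (fun _ => one_pos)
    simpa using this
  have hfS : ∀ J : Finset (Fin K), Tendsto (fun m => fS (x m) J) atTop (𝓝 (fS w J)) := fun J =>
    tendsto_finsetSum _ fun l _ => hlim l
  have hsum : Tendsto (fun m => ∑ l, x m l) atTop (𝓝 (∑ l, w l)) :=
    tendsto_finsetSum _ fun l _ => hlim l
  have key : ∀ ε : ℝ, 0 < ε → v + ε • fS w I ∈ closure C := by
    intro ε hε
    have h1 : v + fS w Iᶜ + ε • ∑ l, w l ∈ C := h.cl_add' hvc (h.smul _ hsumC ε hε)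
    have h2 : Tendsto (fun m => y m + fS (x m) Iᶜ + ε • ∑ l, x m l) atTop
        (𝓝 (v + fS w Iᶜ + ε • ∑ l, w l)) := (hylim.add (hfS Iᶜ)).add (hsum.const_smul ε)
    have h3 : Tendsto (fun m => y m + ε • fS (x m) I) atTop
        (𝓝 (v + ε • fS w I)) := hylim.add ((hfS I).const_smul ε)
    refine isClosed_closure.mem_of_tendsto h3 ?_
    filter_upwards [h2.eventually (h.isOpen.mem_nhds h1)] with m hm
    have hm' : y m + fS (x m) Iᶜ + ε • ∑ l, x m l ∈ C := hm
    rw [← fS_add_compl (x m) I] at hm'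
    have h1ε : 0 < 1 + ε := by linarith
    have e : (1 + ε)⁻¹ • (y m + fS (x m) Iᶜ + ε • (fS (x m) I + fS (x m) Iᶜ))
        = (1 + ε)⁻¹ • (y m + ε • fS (x m) I) + fS (x m) Iᶜ := by
      have hne : 1 + ε ≠ 0 := h1ε.ne'
      match_scalars <;> field_simp
    have h4 := h.cl_smul (subset_closure hm') (t := (1 + ε)⁻¹) (inv_pos.mpr h1ε).le
    rw [e] at h4
    have hmem' : (1 + ε)⁻¹ • (y m + ε • fS (x m) I) ∈ L m :=
      (L m).smul_mem _ ((L m).add_mem (hyL m)
        ((L m).smul_mem _ ((L m).sum_mem fun i hi => (hIB m).mem i hi)))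
    have h5 := (hIB m).box _ hmem' h4
    rwa [h.cl_smul_iff (inv_pos.mpr h1ε)] at h5
  exact cl_of_eps key

end Pool.Agent.NBT.H28
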